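import Mathlib

/-! The domination polynomial of a finite simple graph. -/

namespace Pool.Agent.H384Z.Dom

open Polynomial

variable {V : Type} [Fintype V]

/-- `S` is dominating: each vertex belongs to `S` or is adjacent to a vertex of `S`. -/
def IsDom (G : SimpleGraph V) (S : Finset V) : Prop := ∀ v, v ∈ S ∨ ∃ w ∈ S, G.Adj v w

open Classical in
/-- The number of dominating sets with `k` elements. -/
noncomputable def domCount (G : SimpleGraph V) (k : ℕ) : ℕ :=
  (Finset.univ.filter fun S : Finset V => IsDom G S ∧ S.card = k).card

/-- The domination polynomial, with complex coefficients. -/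
noncomputable def domPoly (G : SimpleGraph V) : ℂ[X] :=
  ∑ k ∈ Finset.range (Fintype.card V + 1), C (domCount G k : ℂ) * X ^ k

/-- A leaf is a vertex with exactly one neighbour. -/
def IsLeaf (G : SimpleGraph V) (v : V) : Prop := (G.neighborSet v).ncard = 1

/-- The number of leaves adjacent to `v`. -/
noncomputable def leafCount (G : SimpleGraph V) (v : V) : ℕ :=
  {w | G.Adj v w ∧ IsLeaf G w}.ncard

/-- Every vertex is a leaf or is adjacent to exactly one or exactly two leaves. -/
def StarLike (G : SimpleGraph V) : Prop :=
  ∀ v, IsLeaf G v ∨ leafCount G v = 1 ∨ leafCount G v = 2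

end Pool.Agent.H384Z.Dom
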