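import Pool.Agent.H384Z.Dom.Ineq

/-! Monic integer polynomials with only real non-positive roots and no root at `-1`. -/

namespace Pool.Agent.H384Z.Dom

open Polynomial

/-- The real roots of an integer polynomial. -/
noncomputable def rts (P : ℤ[X]) : Multiset ℝ := (P.map (Int.castRingHom ℝ)).roots

/-- The sum of `x ^ 2 + x - 2` over the real roots. -/
noncomputable def SS (P : ℤ[X]) : ℝ := ((rts P).map fun x => x ^ 2 + x - 2).sum

theorem rts_mul {P Q : ℤ[X]} (hP : P.Monic) (hQ : Q.Monic) : rts (P * Q) = rts P + rts Q := by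
  unfold rts
  rw [Polynomial.map_mul, roots_mul ((hP.map _).mul (hQ.map _)).ne_zero]

theorem SS_mul {P Q : ℤ[X]} (hP : P.Monic) (hQ : Q.Monic) : SS (P * Q) = SS P + SS Q := by
  unfold SS
  rw [rts_mul hP hQ, Multiset.map_add, Multiset.sum_add]

theorem SS_X : SS X = -2 := by simp [SS, rts]

theorem SS_two : SS (X + 2) = 0 := by
  have : (X + 2 : ℤ[X]).map (Int.castRingHom ℝ) = X - C (-2) := by
    simp [sub_eq_add_neg, map_ofNat]
  simp only [SS, rts, this, roots_X_sub_C, Multiset.map_singleton, Multiset.sum_singleton]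
  norm_num

/-- One root of the golden quadratic. -/
noncomputable def al : ℝ := (-3 + √5) / 2

/-- The other root of the golden quadratic. -/
noncomputable def be : ℝ := (-3 - √5) / 2

theorem al_add_be : al + be = -3 := by unfold al be; ring

theorem al_mul_be : al * be = 1 := by
  unfold al be
  have : √5 * √5 = 5 := Real.mul_self_sqrt (by norm_num)
  nlinarith

theorem gold_map : (X ^ 2 + 3 * X + 1 : ℤ[X]).map (Int.castRingHom ℝ) =
    (X - C al) * (X - C be) := by
  have h1 : (X - C al) * (X - C be) = X ^ 2 - C (al + be) * X + C (al * be) := by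
    rw [C_add, C_mul]; ring
  rw [h1, al_add_be, al_mul_be]
  simp [sub_eq_add_neg, map_ofNat]

theorem SS_gold : SS (X ^ 2 + 3 * X + 1) = 0 := by
  unfold SS rts
  rw [gold_map, roots_mul ((monic_X_sub_C _).mul (monic_X_sub_C _)).ne_zero, roots_X_sub_C,
    roots_X_sub_C]
  simp only [Multiset.map_add, Multiset.map_singleton, Multiset.sum_add, Multiset.sum_singleton]
  have h1 := al_add_be
  have h2 := al_mul_be
  have : al ^ 2 + be ^ 2 = (al + be) ^ 2 - 2 * (al * be) := by ring
  rw [h1, h2] at this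
  linarith

theorem monic_two : (X + 2 : ℤ[X]).Monic := by monicity!

theorem monic_gold : (X ^ 2 + 3 * X + 1 : ℤ[X]).Monic := by monicity!

theorem natDegree_two : (X + 2 : ℤ[X]).natDegree = 1 := by compute_degree!

theorem natDegree_gold : (X ^ 2 + 3 * X + 1 : ℤ[X]).natDegree = 2 := by compute_degree!

theorem norm_form_ne {u v : ℤ} (h : u ^ 2 - 3 * u * v + v ^ 2 = 0) : u = 0 ∧ v = 0 := by
  have hu : u = 0 := by
    by_contra hu
    have h5 : Irrational √(5 : ℕ) := (by norm_num : Nat.Prime 5).irrational_sqrt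
    have h1 : ((2 * v - 3 * u : ℤ) : ℝ) ^ 2 = 5 * (u : ℝ) ^ 2 := by
      have : (2 * v - 3 * u) ^ 2 = 5 * u ^ 2 := by linarith
      exact_mod_cast this
    have hu' : (u : ℝ) ≠ 0 := by exact_mod_cast hu
    apply h5
    refine ⟨|((2 * v - 3 * u : ℤ) : ℚ) / u|, ?_⟩
    rw [eq_comm, Real.sqrt_eq_iff_mul_self_eq (by norm_num) (by positivity)]
    push_cast at h1 ⊢
    rw [abs_mul_abs_self]
    field_simp
    linarith
  subst hu
  exact ⟨rfl, by simpa using h⟩

theorem gold_norm (P : ℤ[X]) (h : ¬ (X ^ 2 + 3 * X + 1 : ℤ[X]) ∣ P) :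
    ∃ z : ℤ, z ≠ 0 ∧ (P.map (Int.castRingHom ℝ)).eval al * (P.map (Int.castRingHom ℝ)).eval be = z := by
  set G : ℤ[X] := X ^ 2 + 3 * X + 1 with hG
  have hdeg : (P %ₘ G).natDegree ≤ 1 := by
    have h1 : G ≠ 1 := by
      intro h2
      have := natDegree_gold
      rw [← hG, h2] at this
      simp at this
    have := natDegree_modByMonic_lt P monic_gold h1
    rw [natDegree_gold, ← hG] at this
    omega
  have hr := eq_X_add_C_of_natDegree_le_one hdeg
  set u := (P %ₘ G).coeff 1
  set v := (P %ₘ G).coeff 0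
  have hP : P = C u * X + C v + G * (P /ₘ G) := by
    rw [← hr]; exact (modByMonic_add_div P G).symm
  refine ⟨u ^ 2 - 3 * u * v + v ^ 2, fun h0 => h ?_, ?_⟩
  · obtain ⟨hu, hv⟩ := norm_form_ne h0
    rw [hP, hu, hv]
    simp
  · have hm : P.map (Int.castRingHom ℝ) = C (u : ℝ) * X + C (v : ℝ) +
        (X - C al) * (X - C be) * (P /ₘ G).map (Int.castRingHom ℝ) := by
      conv_lhs => rw [hP]
      rw [Polynomial.map_add, Polynomial.map_mul (p := G), hG, gold_map]
      simp
    rw [hm]
    simp only [eval_add, eval_mul, eval_C, eval_X, eval_sub, sub_self, zero_mul, mul_zero,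
      add_zero]
    push_cast
    have h1 := al_add_be
    have h2 := al_mul_be
    have : ((u : ℝ) * al + v) * (u * be + v) = u ^ 2 * (al * be) + u * v * (al + be) + v ^ 2 := by
      ring
    rw [this, h1, h2]
    ring

theorem prod_lt_exp (s : Multiset ℝ) (hs : ∀ x ∈ s, x ≤ 0) (hne : s ≠ 0) :
    |(s.map fun x => (0 - x) * (-1 - x) ^ 2 * (-2 - x) * ((al - x) * (be - x))).prod| <
      Real.exp (4 / 5 * (s.map fun x => x ^ 2 + x - 2).sum) := by
  have key : ∀ x : ℝ, x ≤ 0 → |(0 - x) * (-1 - x) ^ 2 * (-2 - x) * ((al - x) * (be - x))| <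
      Real.exp (4 / 5 * (x ^ 2 + x - 2)) := by
    intro x hx
    have h1 := aux_ineq (-x) (by linarith)
    have h2 : (al - x) * (be - x) = x ^ 2 + 3 * x + 1 := by
      have : (al - x) * (be - x) = al * be - (al + be) * x + x ^ 2 := by ring
      rw [this, al_add_be, al_mul_be]; ring
    rw [h2]
    convert h1 using 2 <;> ring
  induction s using Multiset.induction_on with
  | empty => exact absurd rfl hne
  | cons a s ih =>
    have ha := key a (hs a (Multiset.mem_cons_self _ _))
    rw [Multiset.map_cons, Multiset.map_cons, Multiset.prod_cons, Multiset.sum_cons, abs_mul,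
      mul_add, Real.exp_add]
    by_cases h0 : s = 0
    · subst h0
      simpa using ha
    · have := ih (fun x hx => hs x (Multiset.mem_cons_of_mem hx)) h0
      exact mul_lt_mul'' ha this (abs_nonneg _) (abs_nonneg _)

theorem SS_pos {P : ℤ[X]} (hm : P.Monic) (hs : (P.map (Int.castRingHom ℝ)).Splits)
    (hneg : ∀ x ∈ rts P, x ≤ 0) (h0 : P.eval 0 ≠ 0) (h1 : P.eval (-1) ≠ 0) (h2 : P.eval (-2) ≠ 0)
    (hg : ¬ (X ^ 2 + 3 * X + 1 : ℤ[X]) ∣ P) (hne : P ≠ 1) : 0 < SS P := by
  have hm' := hm.map (Int.castRingHom ℝ)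
  have hev : ∀ c : ℤ, ((rts P).map fun x => (c : ℝ) - x).prod = (P.eval c : ℤ) := by
    intro c
    have := hs.eval_eq_prod_roots_of_monic hm' (c : ℝ)
    rw [rts, ← this]
    exact eval_intCast_map (Int.castRingHom ℝ) P c
  obtain ⟨z, hz, hze⟩ := gold_norm P hg
  rw [hs.eval_eq_prod_roots_of_monic hm', hs.eval_eq_prod_roots_of_monic hm'] at hze
  have hrne : rts P ≠ 0 := by
    apply hs.roots_ne_zero
    rw [hm.natDegree_map]
    exact fun h => hne (hm.natDegree_eq_zero.1 h)
  have h3 := prod_lt_exp (rts P) hneg hrne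
  have h4 : ((rts P).map fun x => (0 - x) * (-1 - x) ^ 2 * (-2 - x) * ((al - x) * (be - x))).prod =
      ((P.eval 0 * P.eval (-1) ^ 2 * P.eval (-2) * z : ℤ) : ℝ) := by
    rw [Multiset.prod_map_mul, Multiset.prod_map_mul, Multiset.prod_map_mul, Multiset.prod_map_mul,
      Multiset.prod_map_pow]
    have e0 := hev 0
    have e1 := hev (-1)
    have e2 := hev (-2)
    push_cast at e0 e1 e2 ⊢
    rw [e0, e1, e2]
    congr 1
  have h5 : (1 : ℝ) ≤ |((P.eval 0 * P.eval (-1) ^ 2 * P.eval (-2) * z : ℤ) : ℝ)| := by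
    have : P.eval 0 * P.eval (-1) ^ 2 * P.eval (-2) * z ≠ 0 := by positivity
    exact_mod_cast Int.one_le_abs this
  rw [h4] at h3
  have h6 : 1 < Real.exp (4 / 5 * SS P) := lt_of_le_of_lt h5 h3
  have h7 := Real.one_lt_exp_iff.1 h6
  linarith

theorem structure_thm (n : ℕ) : ∀ P : ℤ[X], P.natDegree = n → P.Monic →
    (P.map (Int.castRingHom ℝ)).Splits → (∀ x ∈ rts P, x ≤ 0) → P.eval (-1) ≠ 0 →
    ∃ a : ℕ, X ^ a ∣ P ∧ (-2 * (a : ℝ) < SS P ∨ (SS P = -2 * (a : ℝ) ∧
      ∃ b c : ℕ, P = X ^ a * (X + 2) ^ b * (X ^ 2 + 3 * X + 1) ^ c)) := by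
  induction n using Nat.strong_induction_on with
  | _ n ih =>
    intro P hn hm hs hneg h1
    have step : ∀ F Q : ℤ[X], F.Monic → 0 < F.natDegree → P = F * Q →
        SS P = SS F + SS Q ∧ ∃ a : ℕ, X ^ a ∣ Q ∧ (-2 * (a : ℝ) < SS Q ∨ (SS Q = -2 * (a : ℝ) ∧
          ∃ b c : ℕ, Q = X ^ a * (X + 2) ^ b * (X ^ 2 + 3 * X + 1) ^ c)) := by
      intro F Q hF hFd hP
      have hQ : Q.Monic := hF.of_mul_monic_left (hP ▸ hm)
      refine ⟨by rw [hP, SS_mul hF hQ], ih Q.natDegree ?_ Q rfl hQ ?_ ?_ ?_⟩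
      · rw [← hn, hP, hF.natDegree_mul hQ]; omega
      · exact hs.of_dvd (hm.map _).ne_zero (Polynomial.map_dvd _ (Dvd.intro_left F hP.symm))
      · intro x hx
        apply hneg
        rw [hP, rts_mul hF hQ]
        exact Multiset.mem_add.2 (Or.inr hx)
      · intro h
        apply h1
        rw [hP, eval_mul, h, mul_zero]
    by_cases h0 : P.eval 0 = 0
    · obtain ⟨Q, hQ⟩ : X ∣ P := X_dvd_iff.2 (by rw [coeff_zero_eq_eval_zero]; exact h0)
      obtain ⟨hS, a, ha, hor⟩ := step X Q monic_X (by simp) hQ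
      rw [SS_X] at hS
      refine ⟨a + 1, by rw [hQ, pow_succ']; exact mul_dvd_mul_left X ha, ?_⟩
      push_cast
      rcases hor with h | ⟨h, b, c, hbc⟩
      · left; linarith
      · right
        exact ⟨by linarith, b, c, by rw [hQ, hbc]; ring⟩
    by_cases h2 : P.eval (-2) = 0
    · obtain ⟨Q, hQ⟩ : X + 2 ∣ P := by
        have := dvd_iff_isRoot.2 (show P.IsRoot (-2) from h2)
        simpa [sub_eq_add_neg, map_ofNat] using this
      obtain ⟨hS, a, ha, hor⟩ := step (X + 2) Q monic_two (by rw [natDegree_two]; norm_num) hQ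
      rw [SS_two] at hS
      refine ⟨a, by rw [hQ]; exact ha.mul_left _, ?_⟩
      rcases hor with h | ⟨h, b, c, hbc⟩
      · left; linarith
      · right
        exact ⟨by linarith, b + 1, c, by rw [hQ, hbc]; ring⟩
    by_cases hg : (X ^ 2 + 3 * X + 1 : ℤ[X]) ∣ P
    · obtain ⟨Q, hQ⟩ := hg
      obtain ⟨hS, a, ha, hor⟩ := step _ Q monic_gold (by rw [natDegree_gold]; norm_num) hQ
      rw [SS_gold] at hS
      refine ⟨a, by rw [hQ]; exact ha.mul_left _, ?_⟩
      rcases hor with h | ⟨h, b, c, hbc⟩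
      · left; linarith
      · right
        exact ⟨by linarith, b, c + 1, by rw [hQ, hbc]; ring⟩
    refine ⟨0, by simp, ?_⟩
    by_cases hne : P = 1
    · right
      subst hne
      exact ⟨by simp [SS, rts], 0, 0, by simp⟩
    · left
      simpa using SS_pos hm hs hneg h0 h1 h2 hg hne

theorem sq_sum_eq (s : Multiset ℝ) : s.sum ^ 2 = (s.map fun x => x ^ 2).sum + 2 * s.esymm 2 := by
  induction s using Multiset.induction_on with
  | empty =>
    have : Multiset.powersetCard 2 (0 : Multiset ℝ) = 0 := Multiset.powersetCard_zero_right 1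
    simp [Multiset.esymm, this]
  | cons a s ih =>
    have h1 : (a ::ₘ s).esymm 2 = s.esymm 2 + a * s.sum := by
      simp only [Multiset.esymm, Multiset.powersetCard_cons, Multiset.map_add, Multiset.sum_add,
        Multiset.map_map, Multiset.powersetCard_one]
      congr 1
      simp only [Function.comp_def, Multiset.prod_cons, Multiset.prod_singleton]
      rw [Multiset.sum_map_mul_left, Multiset.map_id']
    rw [h1, Multiset.sum_cons, Multiset.map_cons, Multiset.sum_cons]
    linarith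

/-- The value of `SS` through the top coefficients. -/
theorem SS_eq {P : ℤ[X]} {n : ℕ} (hn : P.natDegree = n + 2) (hm : P.Monic)
    (hs : (P.map (Int.castRingHom ℝ)).Splits) :
    SS P = (P.coeff (n + 1) : ℝ) ^ 2 - 2 * P.coeff n - P.coeff (n + 1) - 2 * (n + 2) := by
  have hm' := hm.map (Int.castRingHom ℝ)
  have hcard : (rts P).card = n + 2 := by
    rw [rts, ← hs.natDegree_eq_card_roots, hm.natDegree_map, hn]
  have hprod : P.map (Int.castRingHom ℝ) = ((rts P).map fun t => X - C t).prod :=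
    hs.eq_prod_roots_of_monic hm'
  have c1 : (P.coeff (n + 1) : ℝ) = -(rts P).sum := by
    have := Multiset.prod_X_sub_C_coeff (rts P) (k := n + 1) (by omega)
    rw [← hprod, coeff_map, hcard, show n + 2 - (n + 1) = 1 by omega] at this
    rw [show (P.coeff (n + 1) : ℝ) = Int.castRingHom ℝ (P.coeff (n + 1)) from rfl, this]
    simp [Multiset.esymm, Multiset.powersetCard_one]
  have c2 : (P.coeff n : ℝ) = (rts P).esymm 2 := by
    have := Multiset.prod_X_sub_C_coeff (rts P) (k := n) (by omega)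
    rw [← hprod, coeff_map, hcard, show n + 2 - n = 2 by omega] at this
    rw [show (P.coeff n : ℝ) = Int.castRingHom ℝ (P.coeff n) from rfl, this]
    simp
  have h3 := sq_sum_eq (rts P)
  have h4 : SS P = ((rts P).map fun x => x ^ 2).sum + (rts P).sum - 2 * (n + 2) := by
    unfold SS
    rw [Multiset.sum_map_sub, Multiset.sum_map_add]
    simp [hcard]
    ring
  rw [h4, c1, c2]
  linarith

end Pool.Agent.H384Z.Dom
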