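import Pool.Agent.H384Z.Dom.Defs
import Pool.Agent.H384Z.Dom.Roots

/-! Coefficients and values of the domination polynomial. -/

namespace Pool.Agent.H384Z.Dom

open Polynomial Finset

variable {V : Type} [Fintype V] (G : SimpleGraph V)

open Classical in
/-- The domination polynomial over the integers. -/
noncomputable def DZ : ℤ[X] := ∑ S ∈ univ.filter (IsDom G), X ^ S.card

theorem coeff_DZ (k : ℕ) : (DZ G).coeff k = domCount G k := by
  classical
  unfold DZ domCount
  rw [finsetSum_coeff]
  simp only [coeff_X_pow]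
  rw [Finset.sum_boole, Finset.filter_filter]
  congr 2
  ext S
  simp [eq_comm]

theorem domCount_eq_zero {k : ℕ} (hk : Fintype.card V < k) : domCount G k = 0 := by
  classical
  unfold domCount
  rw [Finset.card_eq_zero, Finset.filter_eq_empty_iff]
  rintro S - ⟨-, h⟩
  have := Finset.card_le_univ S
  omega

theorem map_DZ : (DZ G).map (Int.castRingHom ℂ) = domPoly G := by
  ext k
  rw [coeff_map, coeff_DZ, domPoly, finsetSum_coeff]
  simp only [coeff_C_mul_X_pow]
  rw [Finset.sum_ite_eq]
  split_ifs with h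
  · simp
  · rw [domCount_eq_zero G (by simpa using h)]
    simp

theorem domCount_card : domCount G (Fintype.card V) = 1 := by
  classical
  unfold domCount
  rw [Finset.card_eq_one]
  refine ⟨univ, ?_⟩
  ext S
  simp only [mem_filter, mem_univ, true_and, mem_singleton]
  constructor
  · rintro ⟨-, h⟩
    exact Finset.card_eq_iff_eq_univ S |>.1 h
  · rintro rfl
    exact ⟨fun v => Or.inl (mem_univ v), Finset.card_univ⟩

theorem natDegree_DZ : (DZ G).natDegree = Fintype.card V := by
  apply natDegree_eq_of_le_of_coeff_ne_zero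
  · rw [natDegree_le_iff_coeff_eq_zero]
    intro k hk
    rw [coeff_DZ, domCount_eq_zero G hk]
    simp
  · rw [coeff_DZ, domCount_card]
    simp

theorem monic_DZ : (DZ G).Monic := by
  rw [Monic, leadingCoeff, natDegree_DZ, coeff_DZ, domCount_card]
  simp

theorem eval_DZ (c : ℤ) :
    (DZ G).eval c = ∑ S : Finset V, (open Classical in if IsDom G S then c ^ S.card else 0) := by
  classical
  unfold DZ
  rw [eval_finsetSum, Finset.sum_filter]
  simp

theorem rts_nonpos : ∀ x ∈ rts (DZ G), x ≤ 0 := by
  classical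
  intro x hx
  by_contra h
  push Not at h
  have h1 : ((DZ G).map (Int.castRingHom ℝ)).eval x = 0 := (mem_roots'.1 hx).2
  unfold DZ at h1
  rw [Polynomial.map_sum, eval_finsetSum] at h1
  have h2 : 0 < ∑ S ∈ univ.filter (IsDom G),
      eval x (Polynomial.map (Int.castRingHom ℝ) (X ^ S.card)) := by
    apply Finset.sum_pos
    · intro S _
      simp only [Polynomial.map_pow, map_X, eval_pow, eval_X]
      positivity
    · exact ⟨univ, by simp [IsDom]⟩
  exact h2.ne' h1

/-- The number of dominating sets is odd. -/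
theorem eval_neg_one_ne : (DZ G).eval (-1) ≠ 0 := by
  classical
  let R : Finset V → Finset V → Prop := fun S T => ∀ v ∈ T, v ∉ S ∧ ∀ w ∈ S, ¬ G.Adj v w
  have hsymm : ∀ S T, R S T → R T S := fun S T h v hv =>
    ⟨fun hT => (h v hT).1 hv, fun w hw hadj => (h w hw).2 v hv hadj.symm⟩
  have h1 : ∀ S : Finset V, (∑ T : Finset V, if R S T then (1 : ZMod 2) else 0) =
      if IsDom G S then 1 else 0 := by
    intro S
    let U : Finset V := univ.filter fun v => v ∉ S ∧ ∀ w ∈ S, ¬ G.Adj v w
    have h2 : univ.filter (R S) = U.powerset := by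
      ext T
      simp [R, U, subset_iff]
    rw [Finset.sum_boole, h2, Finset.card_powerset]
    push_cast
    by_cases hd : IsDom G S
    · have : U = ∅ := by
        rw [Finset.filter_eq_empty_iff]
        rintro v - ⟨hv, hw⟩
        rcases hd v with h | ⟨w, hw', h⟩
        · exact hv h
        · exact hw w hw' h
      simp [this, hd]
    · have : U.card ≠ 0 := by
        rw [Finset.card_ne_zero]
        unfold IsDom at hd
        push Not at hd
        obtain ⟨v, hv⟩ := hd
        exact ⟨v, by simpa [U] using hv⟩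
      rw [if_neg hd, show (2 : ZMod 2) = 0 from rfl, zero_pow this]
  have h3 : (∑ p : Finset V × Finset V, if R p.1 p.2 then (1 : ZMod 2) else 0) = 1 := by
    rw [← Finset.add_sum_erase _ _ (mem_univ ((∅ : Finset V), (∅ : Finset V)))]
    have h4 : ∑ p ∈ univ.erase ((∅ : Finset V), (∅ : Finset V)),
        (if R p.1 p.2 then (1 : ZMod 2) else 0) = 0 := by
      refine Finset.sum_involution (fun p _ => p.swap) ?_ ?_ ?_ ?_
      · intro p _
        by_cases h : R p.1 p.2
        · have h' : R p.swap.1 p.swap.2 := hsymm _ _ h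
          rw [if_pos h, if_pos h']
          rfl
        · have h' : ¬ R p.swap.1 p.swap.2 := fun h' => h (hsymm _ _ h')
          rw [if_neg h, if_neg h', add_zero]
      · intro p hp hne heq
        have hR : R p.1 p.2 := by
          by_contra h
          exact hne (if_neg h)
        have he : p.2 = p.1 := congrArg Prod.fst heq
        have h0 : p.1 = ∅ := by
          rw [Finset.eq_empty_iff_forall_notMem]
          intro v hv
          exact (hR v (he ▸ hv)).1 hv
        exact (mem_erase.1 hp).1 (Prod.ext h0 (he.trans h0))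
      · intro p hp
        refine mem_erase.2 ⟨fun h => (mem_erase.1 hp).1 ?_, mem_univ _⟩
        exact Prod.swap_injective h
      · intro p _
        rfl
    rw [h4, if_pos (by simp [R]), add_zero]
  rw [Fintype.sum_prod_type] at h3
  simp only [h1] at h3
  intro h0
  have h5 : (((DZ G).eval (-1) : ℤ) : ZMod 2) = 1 := by
    rw [eval_DZ, ← h3]
    push_cast
    refine Finset.sum_congr rfl fun S _ => ?_
    split_ifs
    · rw [show (-1 : ZMod 2) = 1 from rfl, one_pow]
    · rfl
  rw [h0] at h5
  simp at h5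

variable {G}

theorem domCount_pred (hiso : ∀ v, ∃ w, G.Adj v w) {m : ℕ} (hm : Fintype.card V = m + 2) :
    domCount G (m + 1) = m + 2 := by
  classical
  unfold domCount
  have : (univ.filter fun S : Finset V => IsDom G S ∧ S.card = m + 1) =
      powersetCard (m + 1) univ := by
    ext S
    simp only [mem_filter, mem_univ, true_and, mem_powersetCard, subset_univ]
    refine ⟨fun h => h.2, fun h => ⟨fun v => ?_, h⟩⟩
    by_contra hcon
    push Not at hcon
    obtain ⟨w, hw⟩ := hiso v
    have hwS : w ∉ S := fun h' => hcon.2 w h' hw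
    have h2 : ({v, w} : Finset V) ⊆ Sᶜ := by
      intro z hz
      rcases mem_insert.1 hz with rfl | hz
      · exact mem_compl.2 hcon.1
      · rw [mem_singleton.1 hz]; exact mem_compl.2 hwS
    have h3 := Finset.card_le_card h2
    rw [Finset.card_pair hw.ne, Finset.card_compl, hm, h] at h3
    omega
  convert (congrArg Finset.card this).trans _
  rw [card_powersetCard, Finset.card_univ, hm, Nat.choose_succ_self_right]

omit [Fintype V] in
theorem isLeaf_iff {v : V} : IsLeaf G v ↔ ∃ x, G.Adj v x ∧ ∀ y, G.Adj v y → y = x := by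
  unfold IsLeaf
  rw [Set.ncard_eq_one]
  constructor
  · rintro ⟨x, hx⟩
    have h1 : ∀ y, G.Adj v y ↔ y = x := fun y => by
      rw [← SimpleGraph.mem_neighborSet, hx, Set.mem_singleton_iff]
    exact ⟨x, (h1 x).2 rfl, fun y => (h1 y).1⟩
  · rintro ⟨x, hx, hy⟩
    refine ⟨x, Set.ext fun y => ?_⟩
    rw [SimpleGraph.mem_neighborSet, Set.mem_singleton_iff]
    exact ⟨hy y, fun h => h ▸ hx⟩

/-- One leaf for every pendant edge. -/
theorem exists_leafset (hiso : ∀ v, ∃ w, G.Adj v w) {m : ℕ} (hm : Fintype.card V = m + 2) :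
    ∃ L : Finset V, domCount G m + L.card = (m + 2).choose 2 ∧ (∀ w ∈ L, IsLeaf G w) ∧
      ∀ w ∈ L, ∀ x, G.Adj w x → x ∉ L := by
  classical
  let N : Finset (Finset V) := univ.filter fun S => ¬ IsDom G S ∧ S.card = m
  have h1 : ∀ S : Finset V, ¬ IsDom G S → ∃ v, v ∉ S ∧ ∀ w ∈ S, ¬ G.Adj v w := by
    intro S hS
    unfold IsDom at hS
    push Not at hS
    exact hS
  have hne : Nonempty V := Fintype.card_pos_iff.1 (by omega)
  choose! f hf using h1
  have h2 : ∀ S ∈ N, ∀ x, G.Adj (f S) x → Sᶜ = {f S, x} := by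
    intro S hS x hx
    obtain ⟨hS1, hS2⟩ := (mem_filter.1 hS).2
    symm
    apply Finset.eq_of_subset_of_card_le
    · intro z hz
      rcases mem_insert.1 hz with rfl | hz
      · exact mem_compl.2 (hf S hS1).1
      · rw [mem_singleton.1 hz]; exact mem_compl.2 fun h => (hf S hS1).2 x h hx
    · rw [Finset.card_pair hx.ne, Finset.card_compl, hm, hS2]
      omega
  have hinj : Set.InjOn f N := by
    intro S hS T hT hST
    obtain ⟨x, hx⟩ := hiso (f S)
    apply compl_injective
    rw [h2 S hS x hx, h2 T hT x (hST ▸ hx), hST]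
  refine ⟨N.image f, ?_, ?_, ?_⟩
  · rw [Finset.card_image_of_injOn hinj]
    have h3 := Finset.card_filter_add_card_filter_not (s := powersetCard m (univ : Finset V))
      (IsDom G)
    rw [card_powersetCard, Finset.card_univ, hm] at h3
    have h4 : (m + 2).choose m = (m + 2).choose 2 := Nat.choose_symm_of_eq_add rfl
    rw [← h4, ← h3]
    unfold domCount
    congr 2
    · ext S; simp [and_comm]
    · ext S; simp [N, and_comm]
  · intro w hw
    obtain ⟨S, hS, rfl⟩ := mem_image.1 hw
    obtain ⟨x, hx⟩ := hiso (f S)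
    refine isLeaf_iff.2 ⟨x, hx, fun y hy => ?_⟩
    have h3 : y ∈ ({f S, x} : Finset V) := by
      rw [← h2 S hS x hx, h2 S hS y hy]; simp
    rcases mem_insert.1 h3 with h | h
    · exact absurd h hy.ne'
    · exact mem_singleton.1 h
  · intro w hw x hx hxL
    obtain ⟨S, hS, rfl⟩ := mem_image.1 hw
    obtain ⟨T, hT, rfl⟩ := mem_image.1 hxL
    have h3 : S = T := by
      apply compl_injective
      rw [h2 S hS _ hx, h2 T hT _ hx.symm, Finset.pair_comm]
    exact hx.ne (congrArg f h3)

theorem le_card_of_dvd {a : ℕ} (ha : X ^ a ∣ DZ G) {S : Finset V} (hS : IsDom G S) :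
    a ≤ S.card := by
  classical
  by_contra h
  push Not at h
  have h1 := X_pow_dvd_iff.1 ha _ h
  rw [coeff_DZ] at h1
  have h2 : domCount G S.card = 0 := by exact_mod_cast h1
  unfold domCount at h2
  rw [Finset.card_eq_zero, Finset.filter_eq_empty_iff] at h2
  exact h2 (mem_univ S) ⟨hS, rfl⟩

theorem sum_split [DecidableEq V] (B : Finset V) (f g : Finset V → ℤ) :
    ∑ S : Finset V, f (S ∩ B) * g (S \ B) =
      (∑ T ∈ B.powerset, f T) * ∑ U ∈ Bᶜ.powerset, g U := by
  rw [Finset.sum_mul_sum, ← Finset.sum_product']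
  refine Finset.sum_nbij' (fun S => (S ∩ B, S \ B)) (fun p => p.1 ∪ p.2) ?_ ?_ ?_ ?_ ?_
  · intro S _
    simp only [mem_product, mem_powerset]
    exact ⟨inter_subset_right, fun z hz => mem_compl.2 (mem_sdiff.1 hz).2⟩
  · intro p _
    exact mem_univ _
  · intro S _
    ext z
    simp only [mem_union, mem_inter, mem_sdiff]
    tauto
  · intro p hp
    obtain ⟨h1, h2⟩ := mem_product.1 hp
    have h1' : ∀ z ∈ p.1, z ∈ B := fun z hz => mem_powerset.1 h1 hz
    have h2' : ∀ z ∈ p.2, z ∉ B := fun z hz => mem_compl.1 (mem_powerset.1 h2 hz)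
    refine Prod.ext ?_ ?_
    · ext z
      simp only [mem_union, mem_inter]
      have := h1' z
      have := h2' z
      tauto
    · ext z
      simp only [mem_union, mem_sdiff]
      have := h1' z
      have := h2' z
      tauto
  · intro S _
    rfl

omit [Fintype V] in
theorem sum_block [DecidableEq V] {u : V} {W : Finset V} (hu : u ∉ W) (c : ℤ) :
    (∑ T ∈ (insert u W).powerset, if u ∈ T ∨ W ⊆ T then c ^ T.card else 0) =
      c ^ W.card + c * (c + 1) ^ W.card := by
  rw [Finset.sum_powerset_insert hu]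
  congr 1
  · rw [Finset.sum_eq_single W]
    · simp
    · intro T hT hne
      rw [if_neg]
      rintro (h | h)
      · exact hu (mem_powerset.1 hT h)
      · exact hne (Subset.antisymm (mem_powerset.1 hT) h)
    · intro h
      exact absurd (mem_powerset_self W) h
  · rw [← Finset.sum_pow_mul_eq_add_pow, Finset.mul_sum]
    refine Finset.sum_congr rfl fun T hT => ?_
    have : u ∉ T := fun h => hu (mem_powerset.1 hT h)
    rw [if_pos (Or.inl (mem_insert_self _ _)), Finset.card_insert_of_notMem this]
    ring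

/-- If every vertex is a leaf or adjacent to a leaf, each stem gives a factor. -/
theorem block_dvd (hall : ∀ v, IsLeaf G v ∨ ∃ w, G.Adj v w ∧ IsLeaf G w) {u : V}
    (hu : ¬ IsLeaf G u) (c : ℤ) :
    c ^ leafCount G u + c * (c + 1) ^ leafCount G u ∣ (DZ G).eval c := by
  classical
  let W : Finset V := univ.filter fun w => G.Adj u w ∧ IsLeaf G w
  have hW : leafCount G u = W.card := by
    unfold leafCount
    rw [← Set.ncard_coe_finset]
    congr 1
    ext w
    simp [W]
  have huW : u ∉ W := fun h => hu (mem_filter.1 h).2.2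
  have hWu : ∀ w ∈ W, ∀ y, G.Adj w y → y = u := by
    intro w hw y hy
    obtain ⟨x, -, hx⟩ := isLeaf_iff.1 (mem_filter.1 hw).2.2
    rw [hx y hy, hx u (mem_filter.1 hw).2.1.symm]
  let B : Finset V := insert u W
  let ψ : Finset V → Prop := fun U => ∀ v, v ∉ B → v ∈ U ∨ ∃ w ∈ U, G.Adj v w
  have key : ∀ S : Finset V, IsDom G S ↔ (u ∈ S ∩ B ∨ W ⊆ S ∩ B) ∧ ψ (S \ B) := by
    intro S
    constructor
    · intro hS
      constructor
      · by_cases huS : u ∈ S
        · exact Or.inl (mem_inter.2 ⟨huS, mem_insert_self _ _⟩)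
        · refine Or.inr fun w hw => mem_inter.2 ⟨?_, mem_insert_of_mem hw⟩
          rcases hS w with h | ⟨y, hy, h⟩
          · exact h
          · exact absurd (hWu w hw y h ▸ hy) huS
      · intro v hv
        have hvu : v ≠ u := fun h => hv (h ▸ mem_insert_self _ _)
        by_cases hvS : v ∈ S
        · exact Or.inl (mem_sdiff.2 ⟨hvS, hv⟩)
        right
        rcases hall v with hl | ⟨w, hw, hl⟩
        · rcases hS v with h | ⟨y, hy, h⟩
          · exact absurd h hvS
          refine ⟨y, mem_sdiff.2 ⟨hy, fun hyB => ?_⟩, h⟩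
          rcases mem_insert.1 hyB with rfl | hyW
          · exact hv (mem_insert_of_mem (mem_filter.2 ⟨mem_univ _, h.symm, hl⟩))
          · exact hvu (hWu y hyW v h.symm)
        · obtain ⟨x, -, hx⟩ := isLeaf_iff.1 hl
          have hwS : w ∈ S := by
            rcases hS w with h | ⟨y, hy, h⟩
            · exact h
            · rw [hx y h, ← hx v hw.symm] at hy
              exact absurd hy hvS
          refine ⟨w, mem_sdiff.2 ⟨hwS, fun hwB => ?_⟩, hw⟩
          rcases mem_insert.1 hwB with rfl | hwW
          · exact hu hl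
          · exact hvu (hWu w hwW v hw.symm)
    · rintro ⟨h1, h2⟩ v
      by_cases hvB : v ∈ B
      · rcases mem_insert.1 hvB with rfl | hvW
        · rcases h1 with h | h
          · exact Or.inl (mem_inter.1 h).1
          · obtain ⟨w, hw⟩ := (hall v).resolve_left hu
            exact Or.inr ⟨w, (mem_inter.1 (h (mem_filter.2 ⟨mem_univ _, hw⟩))).1, hw.1⟩
        · rcases h1 with h | h
          · exact Or.inr ⟨u, (mem_inter.1 h).1, (mem_filter.1 hvW).2.1.symm⟩
          · exact Or.inl (mem_inter.1 (h hvW)).1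
      · rcases h2 v hvB with h | ⟨w, hw, h⟩
        · exact Or.inl (mem_sdiff.1 h).1
        · exact Or.inr ⟨w, (mem_sdiff.1 hw).1, h⟩
  have h3 := sum_split B (fun T => if u ∈ T ∨ W ⊆ T then c ^ T.card else 0)
    (fun U => if ψ U then c ^ U.card else 0)
  rw [sum_block huW, ← hW] at h3
  refine ⟨_, Eq.trans ?_ h3⟩
  rw [eval_DZ]
  refine Finset.sum_congr rfl fun S _ => ?_
  by_cases hS : IsDom G S
  · obtain ⟨h1, h2⟩ := (key S).1 hS
    rw [if_pos hS, if_pos h1, if_pos h2, ← pow_add, Finset.card_inter_add_card_sdiff]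
  · rw [if_neg hS]
    rcases not_and_or.1 (mt (key S).2 hS) with h | h
    · rw [if_neg h, zero_mul]
    · rw [if_neg h, mul_zero]

end Pool.Agent.H384Z.Dom
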