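import Mathlib

/-! An auxiliary-function inequality for totally positive algebraic integers. -/

namespace Pool.Agent.H384Z.Dom

theorem low_p0 (r : ℝ) (h1 : (0 : ℝ) ≤ r) (h2 : r ≤ (1 : ℝ)) : 0 < 4 / 25 * (1 + 4 / 5 * (r - 1 / 2) ^ 2 + (4 / 5 * (r - 1 / 2) ^ 2) ^ 2 / 2) - r * (r - 1) ^ 2 * (r - 2) * (r ^ 2 - 3 * r + 1) := by
  have hu : 0 ≤ r - (0 : ℝ) := by linarith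
  have hv : 0 ≤ (1 : ℝ) - r := by linarith
  have e : 4 / 25 * (1 + 4 / 5 * (r - 1 / 2) ^ 2 + (4 / 5 * (r - 1 / 2) ^ 2) ^ 2 / 2) - r * (r - 1) ^ 2 * (r - 2) * (r ^ 2 - 3 * r + 1) = (1 / 472 : ℝ) + (56959 / 295000 : ℝ) * (r - (0 : ℝ)) ^ 0 * ((1 : ℝ) - r) ^ 6 + (443221 / 147500 : ℝ) * (r - (0 : ℝ)) ^ 1 * ((1 : ℝ) - r) ^ 5 + (393241 / 295000 : ℝ) * (r - (0 : ℝ)) ^ 2 * ((1 : ℝ) - r) ^ 4 + (3129 / 73750 : ℝ) * (r - (0 : ℝ)) ^ 3 * ((1 : ℝ) - r) ^ 3 + (393241 / 295000 : ℝ) * (r - (0 : ℝ)) ^ 4 * ((1 : ℝ) - r) ^ 2 + (148221 / 147500 : ℝ) * (r - (0 : ℝ)) ^ 5 * ((1 : ℝ) - r) ^ 1 + (56959 / 295000 : ℝ) * (r - (0 : ℝ)) ^ 6 * ((1 : ℝ) - r) ^ 0 := by ring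
  rw [e]
  positivity

theorem low_p1 (r : ℝ) (h1 : (1 : ℝ) ≤ r) (h2 : r ≤ (3 / 2 : ℝ)) : 0 < 4 / 25 * (1 + 4 / 5 * (r - 1 / 2) ^ 2 + (4 / 5 * (r - 1 / 2) ^ 2) ^ 2 / 2) - r * (r - 1) ^ 2 * (r - 2) * (r ^ 2 - 3 * r + 1) := by
  have hu : 0 ≤ r - (1 : ℝ) := by linarith
  have hv : 0 ≤ (3 / 2 : ℝ) - r := by linarith
  have e : 4 / 25 * (1 + 4 / 5 * (r - 1 / 2) ^ 2 + (4 / 5 * (r - 1 / 2) ^ 2) ^ 2 / 2) - r * (r - 1) ^ 2 * (r - 2) * (r ^ 2 - 3 * r + 1) = (1 / 20 : ℝ) + (5808 / 625 : ℝ) * (r - (1 : ℝ)) ^ 0 * ((3 / 2 : ℝ) - r) ^ 6 + (7584 / 125 : ℝ) * (r - (1 : ℝ)) ^ 1 * ((3 / 2 : ℝ) - r) ^ 5 + (94528 / 625 : ℝ) * (r - (1 : ℝ)) ^ 2 * ((3 / 2 : ℝ) - r) ^ 4 + (110584 / 625 : ℝ) * (r - (1 : ℝ)) ^ 3 * ((3 / 2 : ℝ) - r) ^ 3 + (61792 / 625 :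 ℝ) * (r - (1 : ℝ)) ^ 4 * ((3 / 2 : ℝ) - r) ^ 2 + (16442 / 625 : ℝ) * (r - (1 : ℝ)) ^ 5 * ((3 / 2 : ℝ) - r) ^ 1 + (2193 / 625 : ℝ) * (r - (1 : ℝ)) ^ 6 * ((3 / 2 : ℝ) - r) ^ 0 := by ring
  rw [e]
  positivity

theorem low_p2 (r : ℝ) (h1 : (3 / 2 : ℝ) ≤ r) (h2 : r ≤ (2 : ℝ)) : 0 < 4 / 25 * (1 + 4 / 5 * (r - 1 / 2) ^ 2 + (4 / 5 * (r - 1 / 2) ^ 2) ^ 2 / 2) - r * (r - 1) ^ 2 * (r - 2) * (r ^ 2 - 3 * r + 1) := by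
  have hu : 0 ≤ r - (3 / 2 : ℝ) := by linarith
  have hv : 0 ≤ (2 : ℝ) - r := by linarith
  have e : 4 / 25 * (1 + 4 / 5 * (r - 1 / 2) ^ 2 + (4 / 5 * (r - 1 / 2) ^ 2) ^ 2 / 2) - r * (r - 1) ^ 2 * (r - 2) * (r ^ 2 - 3 * r + 1) = (1 / 22 : ℝ) + (26123 / 6875 : ℝ) * (r - (3 / 2 : ℝ)) ^ 0 * ((2 : ℝ) - r) ^ 6 + (120614 / 6875 : ℝ) * (r - (3 / 2 : ℝ)) ^ 1 * ((2 : ℝ) - r) ^ 5 + (348472 / 6875 : ℝ) * (r - (3 / 2 : ℝ)) ^ 2 * ((2 : ℝ) - r) ^ 4 + (886472 / 6875 : ℝ) * (r - (3 / 2 : ℝ)) ^ 3 * ((2 : ℝ) - r) ^ 3 + (1404912 / 6875 : ℝ) * (r - (3 / 2 : ℝ)) ^ 4 * ((2 : ℝ) - r) ^ 2 + (1070464 / 6875 : ℝ) * (r - (3 / 2 : ℝ)) ^ 5 * ((2 : ℝ) - r) ^ 1 + (291168 / 6875 : ℝ) * (r - (3 / 2 : ℝ)) ^ 6 * ((2 : ℝ) - r) ^ 0 := by ring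
  rw [e]
  positivity

theorem hi_p0 (r : ℝ) (h1 : (2 : ℝ) ≤ r) (h2 : r ≤ (4 : ℝ)) : 0 < (1 + (4 / 5 * (r ^ 2 - r - 2)) + (4 / 5 * (r ^ 2 - r - 2)) ^ 2 / 2 + (4 / 5 * (r ^ 2 - r - 2)) ^ 3 / 6 + (4 / 5 * (r ^ 2 - r - 2)) ^ 4 / 24 + (4 / 5 * (r ^ 2 - r - 2)) ^ 5 / 120) - r * (r - 1) ^ 2 * (r - 2) * (r ^ 2 - 3 * r + 1) := by
  have hu : 0 ≤ r - (2 : ℝ) := by linarith
  have hv : 0 ≤ (4 : ℝ) - r := by linarith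
  have e : (1 + (4 / 5 * (r ^ 2 - r - 2)) + (4 / 5 * (r ^ 2 - r - 2)) ^ 2 / 2 + (4 / 5 * (r ^ 2 - r - 2)) ^ 3 / 6 + (4 / 5 * (r ^ 2 - r - 2)) ^ 4 / 24 + (4 / 5 * (r ^ 2 - r - 2)) ^ 5 / 120) - r * (r - 1) ^ 2 * (r - 2) * (r ^ 2 - 3 * r + 1) = (1 / 3 : ℝ) + (1 / 1536 : ℝ) * (r - (2 : ℝ)) ^ 0 * ((4 : ℝ) - r) ^ 10 + (29 / 1920 : ℝ) * (r - (2 : ℝ)) ^ 1 * ((4 : ℝ) - r) ^ 9 + (1699 / 12800 : ℝ) * (r - (2 : ℝ)) ^ 2 * ((4 : ℝ) - r) ^ 8 + (9693 / 16000 : ℝ) * (r - (2 : ℝ)) ^ 3 * ((4 : ℝ) - r) ^ 7 + (255001 / 160000 : ℝ) * (r - (2 : ℝ)) ^ 4 * ((4 : ℝ) - r) ^ 6 + (4961247 / 2000000 : ℝ) * (r - (2 : ℝ)) ^ 5 * ((4 : ℝ) - r) ^ 5 + (1077487 / 480000 : ℝ) * (r - (2 : ℝ)) ^ 6 * ((4 : ℝ) - r) ^ 4 + (57829 / 48000 : ℝ) * (r - (2 : ℝ)) ^ 7 * ((4 :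 ℝ) - r) ^ 3 + (24241 / 38400 : ℝ) * (r - (2 : ℝ)) ^ 8 * ((4 : ℝ) - r) ^ 2 + (479 / 960 : ℝ) * (r - (2 : ℝ)) ^ 9 * ((4 : ℝ) - r) ^ 1 + (1573 / 7680 : ℝ) * (r - (2 : ℝ)) ^ 10 * ((4 : ℝ) - r) ^ 0 := by ring
  rw [e]
  positivity

theorem hi_pt (r : ℝ) (h1 : (4 : ℝ) ≤ r) : 0 < (1 + (4 / 5 * (r ^ 2 - r - 2)) + (4 / 5 * (r ^ 2 - r - 2)) ^ 2 / 2 + (4 / 5 * (r ^ 2 - r - 2)) ^ 3 / 6 + (4 / 5 * (r ^ 2 - r - 2)) ^ 4 / 24 + (4 / 5 * (r ^ 2 - r - 2)) ^ 5 / 120) - r * (r - 1) ^ 2 * (r - 2) * (r ^ 2 - 3 * r + 1) := by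
  have hu : 0 ≤ r - (4 : ℝ) := by linarith
  have e : (1 + (4 / 5 * (r ^ 2 - r - 2)) + (4 / 5 * (r ^ 2 - r - 2)) ^ 2 / 2 + (4 / 5 * (r ^ 2 - r - 2)) ^ 3 / 6 + (4 / 5 * (r ^ 2 - r - 2)) ^ 4 / 24 + (4 / 5 * (r ^ 2 - r - 2)) ^ 5 / 120) - r * (r - 1) ^ 2 * (r - 2) * (r ^ 2 - 3 * r + 1) = (3151 / 15 : ℝ) * (r - (4 : ℝ)) ^ 0 + (3966 / 5 : ℝ) * (r - (4 : ℝ)) ^ 1 + (102863 / 75 : ℝ) * (r - (4 : ℝ)) ^ 2 + (167377 / 125 : ℝ) * (r - (4 : ℝ)) ^ 3 + (1510358 / 1875 : ℝ) * (r - (4 : ℝ)) ^ 4 + (14676821 / 46875 : ℝ) * (r - (4 : ℝ)) ^ 5 + (251371 / 3125 : ℝ) * (r - (4 : ℝ)) ^ 6 + (128128 / 9375 : ℝ) * (r - (4 : ℝ)) ^ 7 + (13984 / 9375 : ℝ) * (r - (4 : ℝ)) ^ 8 + (896 / 9375 : ℝ) * (r - (4 : ℝ)) ^ 9 + (128 / 46875 : ℝ) * (r - (4 : ℝ)) ^ 10 := by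 ring
  rw [e]
  positivity

theorem low_m0 (r : ℝ) (h1 : (0 : ℝ) ≤ r) (h2 : r ≤ (1 / 2 : ℝ)) : 0 < 4 / 25 * (1 + 4 / 5 * (r - 1 / 2) ^ 2 + (4 / 5 * (r - 1 / 2) ^ 2) ^ 2 / 2) + r * (r - 1) ^ 2 * (r - 2) * (r ^ 2 - 3 * r + 1) := by
  have hu : 0 ≤ r - (0 : ℝ) := by linarith
  have hv : 0 ≤ (1 / 2 : ℝ) - r := by linarith
  have e : 4 / 25 * (1 + 4 / 5 * (r - 1 / 2) ^ 2 + (4 / 5 * (r - 1 / 2) ^ 2) ^ 2 / 2) + r * (r - 1) ^ 2 * (r - 2) * (r ^ 2 - 3 * r + 1) = (1 / 128 : ℝ) + (14991 / 1250 : ℝ) * (r - (0 : ℝ)) ^ 0 * ((1 / 2 : ℝ) - r) ^ 6 + (1901 / 625 : ℝ) * (r - (0 : ℝ)) ^ 1 * ((1 / 2 : ℝ) - r) ^ 5 + (18241 / 1250 : ℝ) * (r - (0 : ℝ)) ^ 2 * ((1 / 2 : ℝ) - r) ^ 4 + (12374 / 125 : ℝ) * (r - (0 : ℝ)) ^ 3 * ((1 / 2 : ℝ) - r) ^ 3 + (33037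 / 250 : ℝ) * (r - (0 : ℝ)) ^ 4 * ((1 / 2 : ℝ) - r) ^ 2 + (1711 / 25 : ℝ) * (r - (0 : ℝ)) ^ 5 * ((1 / 2 : ℝ) - r) ^ 1 + (637 / 50 : ℝ) * (r - (0 : ℝ)) ^ 6 * ((1 / 2 : ℝ) - r) ^ 0 := by ring
  rw [e]
  positivity

theorem low_m1 (r : ℝ) (h1 : (1 / 2 : ℝ) ≤ r) (h2 : r ≤ (1 : ℝ)) : 0 < 4 / 25 * (1 + 4 / 5 * (r - 1 / 2) ^ 2 + (4 / 5 * (r - 1 / 2) ^ 2) ^ 2 / 2) + r * (r - 1) ^ 2 * (r - 2) * (r ^ 2 - 3 * r + 1) := by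
  have hu : 0 ≤ r - (1 / 2 : ℝ) := by linarith
  have hv : 0 ≤ (1 : ℝ) - r := by linarith
  have e : 4 / 25 * (1 + 4 / 5 * (r - 1 / 2) ^ 2 + (4 / 5 * (r - 1 / 2) ^ 2) ^ 2 / 2) + r * (r - 1) ^ 2 * (r - 2) * (r ^ 2 - 3 * r + 1) = (1 / 11 : ℝ) + (2041 / 275 : ℝ) * (r - (1 / 2 : ℝ)) ^ 0 * ((1 : ℝ) - r) ^ 6 + (14446 / 275 : ℝ) * (r - (1 / 2 : ℝ)) ^ 1 * ((1 : ℝ) - r) ^ 5 + (182016 / 1375 : ℝ) * (r - (1 / 2 : ℝ)) ^ 2 * ((1 : ℝ) - r) ^ 4 + (209864 / 1375 : ℝ) * (r - (1 / 2 : ℝ)) ^ 3 * ((1 : ℝ) - r) ^ 3 + (651888 / 6875 : ℝ) * (r - (1 / 2 : ℝ)) ^ 4 * ((1 : ℝ) - r) ^ 2 + (241536 / 6875 : ℝ) * (r - (1 / 2 : ℝ)) ^ 5 * ((1 : ℝ) - r) ^ 1 + (45888 / 6875 : ℝ) * (r - (1 / 2 : ℝ)) ^ 6 * ((1 : ℝ) - r) ^ 0 := by ring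
  rw [e]
  positivity

theorem low_m2 (r : ℝ) (h1 : (1 : ℝ) ≤ r) (h2 : r ≤ (2 : ℝ)) : 0 < 4 / 25 * (1 + 4 / 5 * (r - 1 / 2) ^ 2 + (4 / 5 * (r - 1 / 2) ^ 2) ^ 2 / 2) + r * (r - 1) ^ 2 * (r - 2) * (r ^ 2 - 3 * r + 1) := by
  have hu : 0 ≤ r - (1 : ℝ) := by linarith
  have hv : 0 ≤ (2 : ℝ) - r := by linarith
  have e : 4 / 25 * (1 + 4 / 5 * (r - 1 / 2) ^ 2 + (4 / 5 * (r - 1 / 2) ^ 2) ^ 2 / 2) + r * (r - 1) ^ 2 * (r - 2) * (r ^ 2 - 3 * r + 1) = (1 / 11 : ℝ) + (717 / 6875 : ℝ) * (r - (1 : ℝ)) ^ 0 * ((2 : ℝ) - r) ^ 6 + (5358 / 6875 : ℝ) * (r - (1 : ℝ)) ^ 1 * ((2 : ℝ) - r) ^ 5 + (24318 / 6875 : ℝ) * (r - (1 : ℝ)) ^ 2 * ((2 : ℝ) - r) ^ 4 + (65611 / 6875 : ℝ) * (r - (1 : ℝ)) ^ 3 * ((2 : ℝ) - r) ^ 3 + (80352 / 6875 : ℝ) * (r - (1 : ℝ)) ^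 4 * ((2 : ℝ) - r) ^ 2 + (6356 / 1375 : ℝ) * (r - (1 : ℝ)) ^ 5 * ((2 : ℝ) - r) ^ 1 + (4237 / 6875 : ℝ) * (r - (1 : ℝ)) ^ 6 * ((2 : ℝ) - r) ^ 0 := by ring
  rw [e]
  positivity

theorem hi_m0 (r : ℝ) (h1 : (2 : ℝ) ≤ r) (h2 : r ≤ (4 : ℝ)) : 0 < (1 + (4 / 5 * (r ^ 2 - r - 2)) + (4 / 5 * (r ^ 2 - r - 2)) ^ 2 / 2 + (4 / 5 * (r ^ 2 - r - 2)) ^ 3 / 6 + (4 / 5 * (r ^ 2 - r - 2)) ^ 4 / 24 + (4 / 5 * (r ^ 2 - r - 2)) ^ 5 / 120) + r * (r - 1) ^ 2 * (r - 2) * (r ^ 2 - 3 * r + 1) := by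
  have hu : 0 ≤ r - (2 : ℝ) := by linarith
  have hv : 0 ≤ (4 : ℝ) - r := by linarith
  have e : (1 + (4 / 5 * (r ^ 2 - r - 2)) + (4 / 5 * (r ^ 2 - r - 2)) ^ 2 / 2 + (4 / 5 * (r ^ 2 - r - 2)) ^ 3 / 6 + (4 / 5 * (r ^ 2 - r - 2)) ^ 4 / 24 + (4 / 5 * (r ^ 2 - r - 2)) ^ 5 / 120) + r * (r - 1) ^ 2 * (r - 2) * (r ^ 2 - 3 * r + 1) = (1 / 3 : ℝ) + (1 / 1536 : ℝ) * (r - (2 : ℝ)) ^ 0 * ((4 : ℝ) - r) ^ 10 + (7 / 960 : ℝ) * (r - (2 : ℝ)) ^ 1 * ((4 : ℝ) - r) ^ 9 + (499 / 12800 : ℝ) * (r - (2 : ℝ)) ^ 2 * ((4 : ℝ) - r) ^ 8 + (2943 / 16000 : ℝ) * (r - (2 : ℝ)) ^ 3 * ((4 : ℝ) - r) ^ 7 + (137501 / 160000 : ℝ) * (r - (2 : ℝ)) ^ 4 * ((4 : ℝ) - r) ^ 6 + (5961247 / 2000000 : ℝ) * (r - (2 : ℝ)) ^ 5 * ((4 : ℝ) - r) ^ 5 + (3214987 / 480000 : ℝ) * (r -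 (2 : ℝ)) ^ 6 * ((4 : ℝ) - r) ^ 4 + (456079 / 48000 : ℝ) * (r - (2 : ℝ)) ^ 7 * ((4 : ℝ) - r) ^ 3 + (318841 / 38400 : ℝ) * (r - (2 : ℝ)) ^ 8 * ((4 : ℝ) - r) ^ 2 + (7933 / 1920 : ℝ) * (r - (2 : ℝ)) ^ 9 * ((4 : ℝ) - r) ^ 1 + (6973 / 7680 : ℝ) * (r - (2 : ℝ)) ^ 10 * ((4 : ℝ) - r) ^ 0 := by ring
  rw [e]
  positivity

theorem hi_mt (r : ℝ) (h1 : (4 : ℝ) ≤ r) : 0 < (1 + (4 / 5 * (r ^ 2 - r - 2)) + (4 / 5 * (r ^ 2 - r - 2)) ^ 2 / 2 + (4 / 5 * (r ^ 2 - r - 2)) ^ 3 / 6 + (4 / 5 * (r ^ 2 - r - 2)) ^ 4 / 24 + (4 / 5 * (r ^ 2 - r - 2)) ^ 5 / 120) + r * (r - 1) ^ 2 * (r - 2) * (r ^ 2 - 3 * r + 1) := by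
  have hu : 0 ≤ r - (4 : ℝ) := by linarith
  have e : (1 + (4 / 5 * (r ^ 2 - r - 2)) + (4 / 5 * (r ^ 2 - r - 2)) ^ 2 / 2 + (4 / 5 * (r ^ 2 - r - 2)) ^ 3 / 6 + (4 / 5 * (r ^ 2 - r - 2)) ^ 4 / 24 + (4 / 5 * (r ^ 2 - r - 2)) ^ 5 / 120) + r * (r - 1) ^ 2 * (r - 2) * (r ^ 2 - 3 * r + 1) = (13951 / 15 : ℝ) * (r - (4 : ℝ)) ^ 0 + (12666 / 5 : ℝ) * (r - (4 : ℝ)) ^ 1 + (229913 / 75 : ℝ) * (r - (4 : ℝ)) ^ 2 + (274127 / 125 : ℝ) * (r - (4 : ℝ)) ^ 3 + (1952858 / 1875 : ℝ) * (r - (4 : ℝ)) ^ 4 + (16270571 / 46875 : ℝ) * (r - (4 : ℝ)) ^ 5 + (257621 / 3125 : ℝ) * (r - (4 : ℝ)) ^ 6 + (128128 / 9375 : ℝ) * (r - (4 : ℝ)) ^ 7 + (13984 / 9375 : ℝ) * (r - (4 : ℝ)) ^ 8 + (896 / 9375 : ℝ) * (r - (4 : ℝ)) ^ 9 + (128 / 46875 : ℝ) * (r - (4 : ℝ)) ^ 10 :=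 by ring
  rw [e]
  positivity

theorem exp_low : (4 / 25 : ℝ) ≤ Real.exp (-(9 / 5)) := by
  have h1 : Real.exp 1 < 2.7182818286 := Real.exp_one_lt_d9
  have h2 : (1 / 5 : ℝ) + 1 + (1 / 5) ^ 2 / 2 ≤ Real.exp (1 / 5) := by
    have := Real.quadratic_le_exp_of_nonneg (x := (1 / 5 : ℝ)) (by norm_num)
    linarith
  have h3 : Real.exp (-(9 / 5)) * (Real.exp 1 * Real.exp 1) = Real.exp (1 / 5) := by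
    rw [← Real.exp_add, ← Real.exp_add]; norm_num
  have h4 : 0 < Real.exp 1 := Real.exp_pos 1
  have h5 : 0 < Real.exp (-(9 / 5)) := Real.exp_pos _
  have h6 : Real.exp 1 * Real.exp 1 < 2.7182818286 * 2.7182818286 :=
    mul_lt_mul'' h1 h1 h4.le h4.le
  by_contra h
  push Not at h
  have h7 : Real.exp (-(9 / 5)) * (Real.exp 1 * Real.exp 1) ≤
      4 / 25 * (2.7182818286 * 2.7182818286) :=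
    mul_le_mul h.le h6.le (by positivity) (by norm_num)
  rw [h3] at h7
  norm_num at h7 h2
  linarith

theorem aux_ineq (r : ℝ) (hr : 0 ≤ r) :
    |r * (r - 1) ^ 2 * (r - 2) * (r ^ 2 - 3 * r + 1)| < Real.exp (4 / 5 * (r ^ 2 - r - 2)) := by
  rcases le_total r 2 with h2 | h2
  · have hs : 0 ≤ 4 / 5 * (r - 1 / 2) ^ 2 := by positivity
    have h3 := Real.quadratic_le_exp_of_nonneg hs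
    have h4 : Real.exp (4 / 5 * (r ^ 2 - r - 2)) =
        Real.exp (-(9 / 5)) * Real.exp (4 / 5 * (r - 1 / 2) ^ 2) := by
      rw [← Real.exp_add]; congr 1; ring
    have h5 : 4 / 25 * (1 + 4 / 5 * (r - 1 / 2) ^ 2 + (4 / 5 * (r - 1 / 2) ^ 2) ^ 2 / 2) ≤
        Real.exp (4 / 5 * (r ^ 2 - r - 2)) := by
      rw [h4]
      exact mul_le_mul exp_low h3 (by positivity) (Real.exp_pos _).le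
    refine lt_of_lt_of_le (abs_lt.2 ⟨?_, ?_⟩) h5
    · rcases le_total r (1 / 2) with h | h
      · linarith [low_m0 r hr h]
      · rcases le_total r 1 with h' | h'
        · linarith [low_m1 r h h']
        · linarith [low_m2 r h' h2]
    · rcases le_total r 1 with h | h
      · linarith [low_p0 r hr h]
      · rcases le_total r (3 / 2) with h' | h'
        · linarith [low_p1 r h h']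
        · linarith [low_p2 r h' h2]
  · have hz : 0 ≤ 4 / 5 * (r ^ 2 - r - 2) := by nlinarith
    have h3 := Real.sum_le_exp_of_nonneg hz 6
    simp only [Finset.sum_range_succ, Finset.sum_range_zero, Nat.factorial] at h3
    norm_num at h3
    refine lt_of_lt_of_le (abs_lt.2 ⟨?_, ?_⟩) h3
    · rcases le_total r 4 with h | h
      · linarith [hi_m0 r h2 h]
      · linarith [hi_mt r h]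
    · rcases le_total r 4 with h | h
      · linarith [hi_p0 r h2 h]
      · linarith [hi_pt r h]

end Pool.Agent.H384Z.Dom
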