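import Pool.Agent.H384Z.Dom.Graph

/-! Graphs without isolated vertices whose domination polynomial is real-rooted are star-like. -/

namespace Pool.Agent.H384Z.Dom

open Polynomial Finset

theorem pow_gap (j : ℕ) : 2 ^ (j + 4) + 1 < 3 ^ (j + 3) := by
  induction j with
  | zero => norm_num
  | succ j ih =>
    rw [show j + 1 + 4 = (j + 4) + 1 by ring, show j + 1 + 3 = (j + 3) + 1 by ring, pow_succ 2,
      pow_succ 3]
    omega

theorem count_le_two {k a b c : ℕ}
    (h : ∀ x : ℤ, x ^ k + x * (x + 1) ^ k ∣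
      (X ^ a * (X + 2) ^ b * (X ^ 2 + 3 * X + 1) ^ c : ℤ[X]).eval x) : k ≤ 2 := by
  by_contra hk
  rcases Nat.lt_or_ge k 4 with h4 | h4
  · have hk3 : k = 3 := by omega
    subst hk3
    have h1 := h 2
    simp only [eval_mul, eval_pow, eval_X, eval_add, eval_ofNat, eval_one] at h1
    norm_num at h1
    have h2 : (31 : ℤ) ∣ 2 ^ a * 4 ^ b * 11 ^ c := Dvd.dvd.trans (by norm_num) h1
    have hp : Prime (31 : ℤ) := Int.prime_iff_natAbs_prime.2 (by norm_num)
    rcases hp.dvd_or_dvd h2 with h3 | h3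
    · rcases hp.dvd_or_dvd h3 with h5 | h5
      · have := hp.dvd_of_dvd_pow h5
        norm_num at this
      · have := hp.dvd_of_dvd_pow h5
        norm_num at this
    · have := hp.dvd_of_dvd_pow h3
      norm_num at this
  · obtain ⟨j, rfl⟩ : ∃ j, k = j + 4 := ⟨k - 4, by omega⟩
    have h1 := h (-3)
    simp only [eval_mul, eval_pow, eval_X, eval_add, eval_ofNat, eval_one] at h1
    norm_num at h1
    have h2 : ((3 : ℤ) ^ (j + 3) - 2 ^ (j + 4)) ∣ (-3) ^ a * (-1) ^ b := by
      refine Dvd.dvd.trans ⟨(-1) ^ j * 3, ?_⟩ h1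
      rw [neg_pow 3, neg_pow 2]
      ring
    have h3 : IsCoprime ((3 : ℤ) ^ (j + 3) - 2 ^ (j + 4)) ((-3) ^ a * (-1) ^ b) := by
      apply IsCoprime.mul_right
      · apply IsCoprime.pow_right
        apply IsCoprime.neg_right
        have h5 : IsCoprime (-(2 : ℤ) ^ (j + 4)) 3 :=
          (IsCoprime.pow_left (by norm_num : IsCoprime (2 : ℤ) 3)).neg_left
        have h6 := h5.add_mul_left_left (3 ^ (j + 2))
        convert h6 using 1
        ring
      · apply IsCoprime.pow_right
        exact isCoprime_one_right.neg_right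
    have h7 := Int.isUnit_iff.1 (h3.isUnit_of_dvd h2)
    have h8 : (2 : ℤ) ^ (j + 4) + 1 < 3 ^ (j + 3) := by exact_mod_cast pow_gap j
    omega

variable {V : Type} [Fintype V] {G : SimpleGraph V}

theorem starLike_of_realRooted (hiso : ∀ v, ∃ w, G.Adj v w)
    (hreal : ∀ z : ℂ, (domPoly G).IsRoot z → z.im = 0) : StarLike G := by
  classical
  intro u
  obtain ⟨m, hm⟩ : ∃ m, Fintype.card V = m + 2 := by
    obtain ⟨w, hw⟩ := hiso u
    have : 1 < Fintype.card V := Fintype.one_lt_card_iff.2 ⟨u, w, hw.ne⟩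
    exact ⟨Fintype.card V - 2, by omega⟩
  have hs : ((DZ G).map (Int.castRingHom ℝ)).Splits := by
    apply Splits.of_splits_map (algebraMap ℝ ℂ) (IsAlgClosed.splits _)
    intro z hz
    rw [Polynomial.map_map, show (algebraMap ℝ ℂ).comp (Int.castRingHom ℝ) = Int.castRingHom ℂ from
      RingHom.ext_int _ _, map_DZ] at hz
    exact ⟨z.re, Complex.ext rfl (by simpa using (hreal z (mem_roots'.1 hz).2).symm)⟩
  obtain ⟨L, hL, hLleaf, hLind⟩ := exists_leafset hiso hm
  have hS : SS (DZ G) = 2 * L.card - 2 * (m + 2) := by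
    rw [SS_eq ((natDegree_DZ G).trans hm) (monic_DZ G) hs, coeff_DZ, coeff_DZ,
      domCount_pred hiso hm]
    have h1 : (domCount G m : ℝ) + L.card = (m + 2) * (m + 1) / 2 := by
      have h2 : ((domCount G m + L.card : ℕ) : ℝ) = ((m + 2).choose 2 : ℕ) := by rw [hL]
      rw [Nat.cast_choose_two] at h2
      push_cast at h2
      rw [h2]
      ring
    push_cast
    linarith
  obtain ⟨a, ha, hor⟩ := structure_thm _ (DZ G) rfl (monic_DZ G) hs (rts_nonpos G)
    (eval_neg_one_ne G)
  have hLn : L.card ≤ m + 2 := hm ▸ Finset.card_le_univ L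
  have hdom : IsDom G Lᶜ := by
    intro v
    by_cases hv : v ∈ L
    · obtain ⟨w, hw⟩ := hiso v
      exact Or.inr ⟨w, mem_compl.2 (hLind v hv w hw), hw⟩
    · exact Or.inl (mem_compl.2 hv)
  have ha1 : a + L.card ≤ m + 2 := by
    have := le_card_of_dvd ha hdom
    rw [Finset.card_compl, hm] at this
    omega
  have ha1' : (a : ℝ) + L.card ≤ m + 2 := by exact_mod_cast ha1
  rcases hor with h | ⟨h, b, c, hbc⟩
  · exfalso
    linarith
  have ha2 : a + L.card = m + 2 := by
    have : (a : ℝ) + L.card = m + 2 := by linarith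
    exact_mod_cast this
  have hall : ∀ v, IsLeaf G v ∨ ∃ w, G.Adj v w ∧ IsLeaf G w := by
    intro v
    by_contra hcon
    push Not at hcon
    have hvL : v ∈ Lᶜ := mem_compl.2 fun h => hcon.1 (hLleaf v h)
    have hd : IsDom G (Lᶜ.erase v) := by
      intro x
      by_cases hx : x ∈ L
      · obtain ⟨w, hw⟩ := hiso x
        refine Or.inr ⟨w, mem_erase.2 ⟨?_, mem_compl.2 (hLind x hx w hw)⟩, hw⟩
        rintro rfl
        exact hcon.2 x hw.symm (hLleaf x hx)
      · by_cases hxv : x = v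
        · subst hxv
          obtain ⟨w, hw⟩ := hiso x
          exact Or.inr ⟨w, mem_erase.2 ⟨hw.ne', mem_compl.2 fun h => hcon.2 w hw (hLleaf w h)⟩, hw⟩
        · exact Or.inl (mem_erase.2 ⟨hxv, mem_compl.2 hx⟩)
    have h1 := le_card_of_dvd ha hd
    have h2 : 0 < Lᶜ.card := Finset.card_pos.2 ⟨v, hvL⟩
    rw [Finset.card_erase_of_mem hvL] at h1
    rw [Finset.card_compl, hm] at h1 h2
    omega
  by_cases hu : IsLeaf G u
  · exact Or.inl hu
  right
  have h1 : leafCount G u ≤ 2 := count_le_two fun x => hbc ▸ block_dvd hall hu x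
  have h2 : 0 < leafCount G u := by
    unfold leafCount
    rw [Set.ncard_pos]
    exact (hall u).resolve_left hu
  omega

end Pool.Agent.H384Z.Dom
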